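import Pool.Agent.W_a3c811_h61.SlT

set_option autoImplicit false

/-! The tensor product of two `sl2`-triples, in terms of `TensorProduct.map`. -/

noncomputable section

namespace Pool.Agent.H79L

open Module TensorProduct

universe v w

theorem Sl.tensor30 {K : Type v} [Field K] {E₁ E₂ : Type w} [AddCommGroup E₁] [Module K E₁]
    [AddCommGroup E₂] [Module K E₂] {N₁ f₁ : Module.End K E₁} {s₁ : ℤ → Module.End K E₁}
    {P₁ : Finset ℤ} {N₂ f₂ : Module.End K E₂} {s₂ : ℤ → Module.End K E₂} {P₂ : Finset ℤ}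
    (h₁ : Sl N₁ f₁ s₁ P₁) (h₂ : Sl N₂ f₂ s₂ P₂) :
    Sl (TensorProduct.map N₁ (1 : Module.End K E₂) + TensorProduct.map (1 : Module.End K E₁) N₂)
      (TensorProduct.map f₁ (1 : Module.End K E₂) + TensorProduct.map (1 : Module.End K E₁) f₂)
      (fun j => ∑ a ∈ P₁, TensorProduct.map (s₁ a) (s₂ (j - a)))
      (Finset.image₂ (· + ·) P₁ P₂) := by
  have h := h₁.tensor h₂
  exact h

end Pool.Agent.H79L
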