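import Pool.Agent.W_MP_a3c811_h79.Bound

set_option autoImplicit false

/-! The kernels of the powers of the monodromy operator, at the level of a stage. -/

noncomputable section

namespace Pool.Agent.H61W

open Module Polynomial Pool.Agent.H62A Pool.Agent.H79R

universe uA uI v w

variable {A : Type uA} [Ring A] [Algebra ℚ A] {I : Type uI} {K : I → Type v}
    [∀ l, Field (K l)] [∀ l, CharZero (K l)] {V : I → Type w} [∀ l, AddCommGroup (V l)]
    [∀ l, Module (K l) (V l)] [∀ l, FiniteDimensional (K l) (V l)]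

section alg

variable {T : TS A K V} (G : Stage T)

omit [∀ l, FiniteDimensional (K l) (V l)] in
lemma pow_ng (l : I) (w : ℤ) (i : ℕ) :
    T.ρ l (G.n ^ i) * T.ρ l (G.g w) = T.ρ l (G.g w) * T.ρ l (G.n ^ i) := by
  rw [map_pow]
  induction i with
  | zero => simp
  | succ i ih => rw [pow_succ, mul_assoc, G.ng, ← mul_assoc, ih, mul_assoc]

omit [∀ l, FiniteDimensional (K l) (V l)] in
lemma pow_nf (l : I) (i : ℕ) :
    T.ρ l (G.n ^ i) * T.ρ l G.f = ((G.q : K l) ^ i) • (T.ρ l G.f * T.ρ l (G.n ^ i)) := by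
  rw [map_pow]
  induction i with
  | zero => simp
  | succ i ih =>
    rw [pow_succ, mul_assoc, G.nf, mul_smul_comm, ← mul_assoc, ih, smul_mul_assoc, smul_smul,
      mul_assoc, ← pow_succ']

omit [∀ l, FiniteDimensional (K l) (V l)] in
lemma pow_ns (l : I) (p : ℤ) (i : ℕ) :
    T.ρ l (G.n ^ i) * T.ρ l (G.s p) = T.ρ l (G.s (p + 2 * i)) * T.ρ l (G.n ^ i) := by
  rw [map_pow]
  induction i with
  | zero => simp
  | succ i ih =>
    have h : p + 2 * ((i + 1 : ℕ) : ℤ) = p + 2 * i + 2 := by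
      push_cast
      ring
    rw [pow_succ', mul_assoc, ih, ← mul_assoc, G.ns, mul_assoc, h]

omit [∀ l, FiniteDimensional (K l) (V l)] in
lemma ker_bound_pow (w : ℤ) (i : ℕ) (l : I) :
    LinearMap.ker (T.ρ l (G.n ^ i * G.g w + (1 - G.g w))) =
      LinearMap.range (T.ρ l (G.g w)) ⊓ LinearMap.ker (T.ρ l (G.n ^ i)) := by
  have hg : ∀ x, T.ρ l (G.g w) (T.ρ l (G.g w) x) = T.ρ l (G.g w) x := fun x => by
    rw [← Module.End.mul_apply, G.g_idem]
  have hn : ∀ x, T.ρ l (G.n ^ i) (T.ρ l (G.g w) x) = T.ρ l (G.g w) (T.ρ l (G.n ^ i) x) :=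
    fun x => by rw [← Module.End.mul_apply, pow_ng, Module.End.mul_apply]
  have hy : ∀ x, T.ρ l (G.n ^ i * G.g w + (1 - G.g w)) x =
      T.ρ l (G.g w) (T.ρ l (G.n ^ i) x) + (x - T.ρ l (G.g w) x) := by
    intro x
    rw [map_add, map_mul, map_sub, map_one, LinearMap.add_apply, Module.End.mul_apply,
      LinearMap.sub_apply, Module.End.one_apply, hn]
  ext x
  rw [LinearMap.mem_ker, hy, Submodule.mem_inf, LinearMap.mem_ker, LinearMap.mem_range]
  constructor
  · intro h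
    have h1 := congrArg (T.ρ l (G.g w)) h
    rw [map_add, map_sub, hg, hg, sub_self, add_zero, map_zero] at h1
    rw [h1, zero_add, sub_eq_zero] at h
    refine ⟨⟨x, h.symm⟩, ?_⟩
    rw [h, hn]
    exact h1
  · rintro ⟨⟨z, rfl⟩, h⟩
    rw [h, map_zero, hg, sub_self, add_zero]

end alg

variable {T : TS A K V} (G : Stage T)

/-- Weight monodromy in one pure theory: the power `n ^ i` of the monodromy operator in degree `w`
and position `p` has the same rank in all theories. -/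
theorem rk_const_pow [Nonempty I] {l0 : I} (h0 : T.Pure l0) (hWM : G.WM l0) (w p : ℤ) (i : ℕ)
    (l : I) :
    TS.rk (T.ρ l (G.n ^ i * (G.g w * G.s p))) = TS.rk (T.ρ l0 (G.n ^ i * (G.g w * G.s p))) := by
  have hge := T.rk_le (G.n ^ i * (G.g w * G.s p)) h0 l
  refine le_antisymm ?_ hge
  have hry : ∀ l, LinearMap.range (T.ρ l (G.n ^ i * (G.g w * G.s p))) =
      (LinearMap.range (T.ρ l (G.g w * G.s p))).map (T.ρ l G.n ^ i) := by
    intro l
    rw [map_mul, map_pow, Stage.stage_range_mul]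
  rcases le_total p (-i) with hp | hp
  · -- injectivity in the pure theory
    have h1 : TS.rk (T.ρ l (G.n ^ i * (G.g w * G.s p))) ≤ TS.rk (T.ρ l (G.g w * G.s p)) := by
      rw [map_mul]
      exact TS.reg_rk_mul_le _ _
    have h2 : TS.rk (T.ρ l0 (G.n ^ i * (G.g w * G.s p))) = TS.rk (T.ρ l0 (G.g w * G.s p)) := by
      unfold TS.rk
      rw [hry]
      refine Stage.stage_finrank_map _ _ ?_
      obtain ⟨j, hj⟩ : ∃ j : ℕ, p = -((j + i : ℕ) : ℤ) := ⟨(-p - i).toNat, by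
        push_cast
        omega⟩
      have h3 := (hWM w (j + i)).injOn
      rw [← hj] at h3
      intro x hx y hy hxy
      refine h3 hx hy ?_
      rw [pow_add, Module.End.mul_apply, Module.End.mul_apply, hxy]
    rw [h2, G.stage_gs_rk w p l0 l]
    exact h1
  · -- surjectivity in the pure theory
    have hle : ∀ l, LinearMap.range (T.ρ l (G.n ^ i * (G.g w * G.s p))) ≤
        LinearMap.range (T.ρ l (G.g w * G.s (p + 2 * i))) := by
      intro l
      rw [map_mul, map_pow, G.stage_pow_gs]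
      exact Stage.stage_range_mul_le _ _
    have h1 : TS.rk (T.ρ l (G.n ^ i * (G.g w * G.s p))) ≤
        TS.rk (T.ρ l (G.g w * G.s (p + 2 * i))) :=
      Submodule.finrank_mono (hle l)
    have h2 : TS.rk (T.ρ l0 (G.n ^ i * (G.g w * G.s p))) =
        TS.rk (T.ρ l0 (G.g w * G.s (p + 2 * i))) := by
      unfold TS.rk
      have h3 : LinearMap.range (T.ρ l0 (G.n ^ i * (G.g w * G.s p))) =
          LinearMap.range (T.ρ l0 (G.g w * G.s (p + 2 * i))) := by
        refine le_antisymm (hle l0) ?_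
        obtain ⟨j, hj⟩ : ∃ j : ℕ, p + 2 * i = ((i + j : ℕ) : ℤ) := ⟨(p + i).toNat, by
          push_cast
          omega⟩
        intro y hy
        have h4 := (hWM w (i + j)).surjOn
        rw [← hj] at h4
        obtain ⟨x, hx, hxy⟩ := h4 hy
        rw [hry]
        refine ⟨(T.ρ l0 G.n ^ j) x, ?_, ?_⟩
        · obtain ⟨z, rfl⟩ := hx
          rw [← Module.End.mul_apply, G.stage_pow_gs l0 w (-(p + 2 * i)) j, Module.End.mul_apply]
          have h5 : -(p + 2 * (i : ℤ)) + 2 * (j : ℤ) = p := by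
            push_cast at hj
            omega
          rw [h5]
          exact ⟨_, rfl⟩
        · rw [← Module.End.mul_apply, ← pow_add]
          exact hxy
      rw [h3]
    rw [h2, G.stage_gs_rk w (p + 2 * i) l0 l]
    exact h1

/-- Weight monodromy in one pure theory: joint quasi-inverse of `n ^ i` in degree `w`. -/
theorem exists_quasi_inverse_pow [Nonempty I] {l0 : I} (h0 : T.Pure l0) (hWM : G.WM l0) (w : ℤ)
    (i : ℕ) :
    ∃ h : A, ∀ l, T.ρ l (G.n ^ i * G.g w) * T.ρ l h * T.ρ l (G.n ^ i * G.g w) =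
      T.ρ l (G.n ^ i * G.g w) := by
  have hex : ∀ p : ℤ, ∃ h : A, ∀ l, T.ρ l (G.n ^ i * (G.g w * G.s p)) * T.ρ l h *
      T.ρ l (G.n ^ i * (G.g w * G.s p)) = T.ρ l (G.n ^ i * (G.g w * G.s p)) := fun p =>
    T.exists_regular_of_rk_eq _ h0 (fun l => rk_const_pow G h0 hWM w p i l)
  choose h hh using hex
  refine ⟨∑ p ∈ G.P, (G.g w * G.s p) * h p * G.s (p + 2 * i), fun l => ?_⟩
  have h1 : ∀ p, T.ρ l (G.n ^ i * G.g w) * T.ρ l (G.g w * G.s p) =
      T.ρ l (G.n ^ i * (G.g w * G.s p)) := by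
    intro p
    rw [map_mul, map_mul _ (G.g w) (G.s p), map_mul _ (G.n ^ i) (G.g w * G.s p),
      map_mul _ (G.g w) (G.s p), mul_assoc, ← mul_assoc (T.ρ l (G.g w)), G.g_idem]
  have h2 : ∀ p, T.ρ l (G.s (p + 2 * i)) * T.ρ l (G.n ^ i * G.g w) =
      T.ρ l (G.n ^ i * (G.g w * G.s p)) := by
    intro p
    rw [map_mul _ (G.n ^ i) (G.g w), map_mul _ (G.n ^ i) (G.g w * G.s p),
      map_mul _ (G.g w) (G.s p), ← mul_assoc, ← pow_ns, mul_assoc, ← G.gs]
  have h3 : T.ρ l (G.n ^ i * G.g w) = ∑ p ∈ G.P, T.ρ l (G.n ^ i * (G.g w * G.s p)) := by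
    have h4 : T.ρ l (G.n ^ i * G.g w) =
        T.ρ l (G.n ^ i * G.g w) * ∑ p ∈ G.P, T.ρ l (G.s p) := by
      rw [G.s_sum, mul_one]
    rw [h4, Finset.mul_sum]
    refine Finset.sum_congr rfl fun p _ => ?_
    rw [map_mul _ (G.n ^ i) (G.g w), map_mul _ (G.n ^ i) (G.g w * G.s p),
      map_mul _ (G.g w) (G.s p), mul_assoc]
  rw [map_sum, Finset.mul_sum, Finset.sum_mul]
  refine Eq.trans ?_ h3.symm
  refine Finset.sum_congr rfl fun p _ => ?_
  have h5 : T.ρ l ((G.g w * G.s p) * h p * G.s (p + 2 * i)) =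
      T.ρ l (G.g w * G.s p) * T.ρ l (h p) * T.ρ l (G.s (p + 2 * i)) := by
    rw [map_mul (T.ρ l) (G.g w * G.s p * h p), map_mul (T.ρ l) (G.g w * G.s p)]
  rw [h5, ← mul_assoc, ← mul_assoc, h1, mul_assoc, h2, hh p l]

/-- The characteristic polynomial of Frobenius on the kernel of `n ^ i` in degree `w`, if `n ^ i` in
degree `w` has a joint quasi-inverse `h`. -/
theorem charpoly_inv_pow (w : ℤ) (i : ℕ) (h : A)
    (hh : ∀ l, T.ρ l (G.n ^ i * G.g w) * T.ρ l h * T.ρ l (G.n ^ i * G.g w) =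
      T.ρ l (G.n ^ i * G.g w)) :
    ∃ P : ℚ[X], ∀ l, CharpolyOn (T.ρ l G.f)
      (LinearMap.range (T.ρ l (G.g w)) ⊓ LinearMap.ker (T.ρ l (G.n ^ i))) P := by
  have hng : ∀ l x, T.ρ l (G.n ^ i) (T.ρ l (G.g w) x) = T.ρ l (G.g w) (T.ρ l (G.n ^ i) x) := by
    intro l x
    rw [← Module.End.mul_apply, pow_ng, Module.End.mul_apply]
  have hgg : ∀ l x, T.ρ l (G.g w) (T.ρ l (G.g w) x) = T.ρ l (G.g w) x := by
    intro l x
    rw [← Module.End.mul_apply, G.g_idem]
  have hy : ∀ l x, T.ρ l (G.n ^ i) (T.ρ l (G.g w) (T.ρ l h (T.ρ l (G.n ^ i)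
      (T.ρ l (G.g w) x)))) = T.ρ l (G.n ^ i) (T.ρ l (G.g w) x) := by
    intro l x
    have h1 := LinearMap.congr_fun (hh l) x
    rw [map_mul _ (G.n ^ i) (G.g w)] at h1
    simpa only [Module.End.mul_apply] using h1
  have hp : ∀ l x, T.ρ l (G.g w * (1 - h * (G.n ^ i * G.g w))) x =
      T.ρ l (G.g w) (x - T.ρ l h (T.ρ l (G.n ^ i) (T.ρ l (G.g w) x))) := by
    intro l x
    rw [map_mul _ (G.g w), map_sub, map_one, map_mul _ h, map_mul _ (G.n ^ i) (G.g w)]
    simp only [Module.End.mul_apply, LinearMap.sub_apply, Module.End.one_apply]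
  have h1 : ∀ l x, T.ρ l (G.g w * (1 - h * (G.n ^ i * G.g w))) x ∈
      LinearMap.range (T.ρ l (G.g w)) ⊓ LinearMap.ker (T.ρ l (G.n ^ i)) := by
    intro l x
    rw [hp]
    refine ⟨⟨_, rfl⟩, LinearMap.mem_ker.2 ?_⟩
    rw [map_sub, map_sub, hy, sub_self]
  have h2 : ∀ l x, x ∈ LinearMap.range (T.ρ l (G.g w)) ⊓ LinearMap.ker (T.ρ l (G.n ^ i)) →
      T.ρ l (G.g w * (1 - h * (G.n ^ i * G.g w))) x = x := by
    rintro l x ⟨⟨y, rfl⟩, hx⟩
    have hx' : T.ρ l (G.n ^ i) (T.ρ l (G.g w) y) = 0 := LinearMap.mem_ker.1 hx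
    rw [hp, hgg, hx', map_zero, sub_zero, hgg]
  have hr : ∀ l, LinearMap.range (T.ρ l (G.g w * (1 - h * (G.n ^ i * G.g w)))) =
      LinearMap.range (T.ρ l (G.g w)) ⊓ LinearMap.ker (T.ρ l (G.n ^ i)) := by
    intro l
    refine le_antisymm ?_ ?_
    · rintro _ ⟨x, rfl⟩
      exact h1 l x
    · intro x hx
      exact ⟨x, h2 l x hx⟩
  obtain ⟨P, hP⟩ := T.charpoly_range G.f (G.g w * (1 - h * (G.n ^ i * G.g w))) (by
    intro l
    ext x
    rw [Module.End.mul_apply]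
    exact h2 l _ (h1 l x)) (by
    intro l x hx
    rw [hr] at hx ⊢
    obtain ⟨⟨y, rfl⟩, hx2⟩ := hx
    refine ⟨⟨T.ρ l G.f y, ?_⟩, LinearMap.mem_ker.2 ?_⟩
    · rw [← Module.End.mul_apply, ← G.fg, Module.End.mul_apply]
    · have hx' : T.ρ l (G.n ^ i) (T.ρ l (G.g w) y) = 0 := LinearMap.mem_ker.1 hx2
      rw [← Module.End.mul_apply, pow_nf, LinearMap.smul_apply,
        Module.End.mul_apply, hx', map_zero, smul_zero])
  refine ⟨P, fun l => ?_⟩
  rw [← hr l]
  exact hP l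

/-- Frobenius on the kernels of the powers of the monodromy operator, in a trace system with a pure
theory. -/
theorem exists_bound_pow [Nonempty I] {l0 : I} (h0 : T.Pure l0) (w : ℤ) (i : ℕ) :
    ∃ Q : ℚ[X],
      (∀ l, T.Pure l → CharpolyOn (T.ρ l G.f)
        (LinearMap.range (T.ρ l (G.g w)) ⊓ LinearMap.ker (T.ρ l (G.n ^ i))) Q) ∧
      (G.WM l0 → ∀ l, CharpolyOn (T.ρ l G.f)
        (LinearMap.range (T.ρ l (G.g w)) ⊓ LinearMap.ker (T.ρ l (G.n ^ i))) Q) ∧
      ∀ l, CharpolyDvd (T.ρ l G.f)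
        (LinearMap.range (T.ρ l (G.g w)) ⊓ LinearMap.ker (T.ρ l (G.n ^ i))) Q := by
  have hf : ∀ l v, T.ρ l (G.n ^ i * G.g w + (1 - G.g w)) v = 0 →
      T.ρ l (G.n ^ i * G.g w + (1 - G.g w)) (T.ρ l G.f v) = 0 := by
    intro l v hv
    have hv' : v ∈ LinearMap.ker (T.ρ l (G.n ^ i * G.g w + (1 - G.g w))) := hv
    rw [ker_bound_pow, Submodule.mem_inf, LinearMap.mem_ker] at hv'
    obtain ⟨⟨z, rfl⟩, h2⟩ := hv'
    change T.ρ l G.f (T.ρ l (G.g w) z) ∈
      LinearMap.ker (T.ρ l (G.n ^ i * G.g w + (1 - G.g w)))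
    rw [ker_bound_pow, Submodule.mem_inf, LinearMap.mem_ker]
    constructor
    · rw [← Module.End.mul_apply, G.fg, Module.End.mul_apply]
      exact ⟨_, rfl⟩
    · rw [← Module.End.mul_apply (T.ρ l (G.n ^ i)), pow_nf, LinearMap.smul_apply,
        Module.End.mul_apply, h2, map_zero, smul_zero]
  obtain ⟨Q, h1, h2, h3⟩ := charpoly_ker T h0 (G.n ^ i * G.g w + (1 - G.g w)) G.f hf
  rw [ker_bound_pow] at h1
  refine ⟨Q, fun l hl => ?_, fun hWM => ?_, fun l => ?_⟩
  · have h4 := h3 l ?_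
    · rwa [ker_bound_pow] at h4
    · have h5 := LinearMap.finrank_range_add_finrank_ker
        (T.ρ l (G.n ^ i * G.g w + (1 - G.g w)))
      have h6 := LinearMap.finrank_range_add_finrank_ker
        (T.ρ l0 (G.n ^ i * G.g w + (1 - G.g w)))
      have h7 := TS.rk_le T (G.n ^ i * G.g w + (1 - G.g w)) h0 l
      have h8 := TS.rk_le T (G.n ^ i * G.g w + (1 - G.g w)) hl l0
      have h9 : finrank (K l) (V l) = finrank (K l0) (V l0) := by
        have h10 := T.finrank_eq l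
        have h11 := T.finrank_eq l0
        rw [← h11] at h10
        exact_mod_cast h10
      unfold TS.rk at h7 h8
      omega
  · obtain ⟨h, hh⟩ := exists_quasi_inverse_pow G h0 hWM w i
    obtain ⟨P, hP⟩ := charpoly_inv_pow G w i h hh
    rw [← charpolyOn_unique (hP l0) h1]
    exact hP
  · have h4 := h2 l
    rwa [ker_bound_pow] at h4

end Pool.Agent.H61W
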