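import Pool.Agent.W_a3c811_h62.Final
import Pool.Agent.W_a3c811_h61.Pow

set_option autoImplicit false

/-! Independence of `l` of the Weil-Deligne representation: the final theorem. -/

noncomputable section

namespace Pool.Agent.H61W

open Polynomial Module Pool.Agent.WeilH_h6 Pool.Agent.WeilH_h6.VarClass Pool.Agent.H62D
open Pool.Agent.H62A

universe u v w

variable {k : Type u} [Field k] {𝒱 : VarClass k}
variable {I : Type} {K : I → Type v} [∀ l, Field (K l)] [∀ l, CharZero (K l)]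
  {W : ∀ l, Weil.{u, v, w} 𝒱 (K l)}

/-- The kernel in `V^w` of the `i`-th power of the monodromy operator. -/
def kerPow {C : MComplex W} (R : Realisation C) (l : I) (w : ℤ) (i : ℕ) :
    Submodule (K l) (R.V l) := R.deg l w ⊓ LinearMap.ker (R.ν l ^ i)

section

variable [Nonempty I]

lemma range_ker_pow {C : MComplex W} (R : Realisation C) (hW : Compatible W)
    (hK : ∀ a n, KunnethMotivic W (C.Y a) n) (h) (hh) (l : I) (w : ℤ) (i : ℕ) :
    LinearMap.range ((T2 R hW hK h hh).ρ l ((mkStage R hW hK h hh).g w)) ⊓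
      LinearMap.ker ((T2 R hW hK h hh).ρ l ((mkStage R hW hK h hh).n ^ i)) =
        kerPow R l w i := by
  rw [stage_g, R.range_pdeg, map_pow, stage_n]
  rfl

end

theorem main (hW : Compatible W) (C : MComplex W) (R : Realisation C)
    (hK : ∀ a n, KunnethMotivic W (C.Y a) n) (hb : ∀ l l', C.betti l = C.betti l') {l0 : I}
    (h0 : ∀ a b, (W l0).HomEqNum ((C.Y a).prod (C.Y b))) (w : ℤ) :
    ∃ (A : ℚ[X]) (B : ℕ → ℚ[X]), (∀ l, CharpolyOn (R.φ l) (R.deg l w) A) ∧
      (∀ i l, CharpolyDvd (R.φ l) (kerPow R l w i) (B i)) ∧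
      (∀ i l, (∀ a b, (W l).HomEqNum ((C.Y a).prod (C.Y b))) →
        CharpolyOn (R.φ l) (kerPow R l w i) (B i)) ∧
      (R.WeightMonodromy l0 →
        ∀ l, R.WeightMonodromy l ∧ ∀ i, CharpolyOn (R.φ l) (kerPow R l w i) (B i)) := by
  haveI : Nonempty I := ⟨l0⟩
  let T := MA.ts hW hK
  have hp : T.Pure l0 := MA.pure hW hK h0
  have hrk : ∀ l, TS.rk (T.ρ l (C.dA hW)) = TS.rk (T.ρ l0 (C.dA hW)) := by
    intro l
    have h1 := rk_of_betti (C.d l) (C.d_sq' l)
    have h2 := rk_of_betti (C.d l0) (C.d_sq' l0)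
    have h3 : (finrank (K l) (Tot (W l) C.Y) : ℚ) = finrank (K l0) (Tot (W l0) C.Y) := by
      rw [T.finrank_eq l, T.finrank_eq l0]
    have h4 := hb l l0
    unfold MComplex.betti cohDim at h4
    have h5 : finrank (K l) (Tot (W l) C.Y) = finrank (K l0) (Tot (W l0) C.Y) := by
      exact_mod_cast h3
    change TS.rk (C.d l) = TS.rk (C.d l0)
    omega
  obtain ⟨h, hh⟩ := T.exists_regular_of_rk_eq (C.dA hW) hp hrk
  have hh' : ∀ l, (C.d l : Module.End (K l) (Tot (W l) C.Y)) * MA.val h l * C.d l = C.d l := hh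
  let G := mkStage R hW hK h hh'
  have hp2 : ∀ l, (∀ a b, (W l).HomEqNum ((C.Y a).prod (C.Y b))) →
      (T2 R hW hK h hh').Pure l := fun l hl => (mkRet R hW hK h hh').pure (MA.pure hW hK hl)
  obtain ⟨A, hA⟩ := G.charpoly_deg w
  choose B hB1 hB2 hB3 using fun i : ℕ => exists_bound_pow G (hp2 l0 h0) w i
  refine ⟨A, B, fun l => ?_, fun i l => ?_, fun i l hl => ?_, fun hwm l => ⟨?_, fun i => ?_⟩⟩
  · have := hA l
    rw [range_g R hW hK h hh' l w, stage_f] at this
    exact this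
  · have := hB3 i l
    rw [range_ker_pow R hW hK h hh' l w i, stage_f] at this
    exact this
  · have := hB1 i l (hp2 l hl)
    rw [range_ker_pow R hW hK h hh' l w i, stage_f] at this
    exact this
  · exact (wm_iff R hW hK h hh' l).1
      (G.wm_of_pure (hp2 l0 h0) ((wm_iff R hW hK h hh' l0).2 hwm) l)
  · have := hB2 i ((wm_iff R hW hK h hh' l0).2 hwm) l
    rw [range_ker_pow R hW hK h hh' l w i, stage_f] at this
    exact this

theorem final (r : ℕ) (P g : Fin r → ℚ[X]) (hP : ∀ i, (P i).Separable)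
    (hg : ∀ i, ∀ z : ℂ, aeval z (P i) = 0 → aeval z (g i) = starRingEnd ℂ z) :
    ∃ Λ : Set ℕ, (∀ l ∈ Λ, l.Prime) ∧ PosDirichletDensity Λ ∧
      ∀ (k : Type u) [Field k] (𝒱 : VarClass k) (I : Type) (K : I → Type v) [∀ l, Field (K l)]
        [∀ l, CharZero (K l)] (W : ∀ l, Weil.{u, v, w} 𝒱 (K l)), Compatible W →
        ∀ (C : MComplex W) (R : Realisation C), (∀ a n, KunnethMotivic W (C.Y a) n) →
          (∀ l l', C.betti l = C.betti l') → ∀ l0, GoodAt P g Λ C l0 → ∀ w,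
            ∃ (A : ℚ[X]) (B : ℕ → ℚ[X]), (∀ l, CharpolyOn (R.φ l) (R.deg l w) A) ∧
              (∀ i l, CharpolyDvd (R.φ l) (kerPow R l w i) (B i)) ∧
              (∀ i l, GoodAt P g Λ C l → CharpolyOn (R.φ l) (kerPow R l w i) (B i)) ∧
              (R.WeightMonodromy l0 →
                ∀ l, R.WeightMonodromy l ∧
                  ∀ i, CharpolyOn (R.φ l) (kerPow R l w i) (B i)) := by
  obtain ⟨Λ, h1, h2, h3⟩ := H62D.final r P g hP hg
  refine ⟨Λ, h1, h2, ?_⟩
  intro k _ 𝒱 I K _ _ W hW C R hK hb l0 hl0 w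
  have key : ∀ l, GoodAt P g Λ C l → ∀ a b, (W l).HomEqNum ((C.Y a).prod (C.Y b)) := by
    rintro l (h | ⟨hadm, hgen⟩) a b
    · exact h a b
    · refine h3 (K l) ?_ k 𝒱 (W l) _ (Generated.prod _ _ (hgen a) (hgen b))
      rcases hadm with ⟨m, hm, hmΛ, he⟩ | hre
      · exact Or.inr (Or.inr ⟨m, hm, hmΛ, he⟩)
      · exact Or.inl hre
  obtain ⟨A, B, hA, hB1, hB2, hB3⟩ := main hW C R hK hb (key l0 hl0) w
  exact ⟨A, B, hA, hB1, fun i l hl => hB2 i l (key l hl), hB3⟩

end Pool.Agent.H61W
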