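import Pool.Agent.W_a3c811_h61.Fin

set_option autoImplicit false

/-! The form with the inertia invariants only (the statement handed in before) follows. -/

noncomputable section

namespace Pool.Agent.H61W

open Polynomial Pool.Agent.WeilH_h6 Pool.Agent.WeilH_h6.VarClass Pool.Agent.H62D Pool.Agent.H62A

universe u v w

theorem old_form (r : ℕ) (P g : Fin r → ℚ[X]) (hP : ∀ i, (P i).Separable)
    (hg : ∀ i, ∀ z : ℂ, aeval z (P i) = 0 → aeval z (g i) = starRingEnd ℂ z) :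
    ∃ Λ : Set ℕ, (∀ l ∈ Λ, l.Prime) ∧ PosDirichletDensity Λ ∧
      ∀ (k : Type u) [Field k] (𝒱 : VarClass k) (I : Type) (K : I → Type v) [∀ l, Field (K l)]
        [∀ l, CharZero (K l)] (W : ∀ l, Weil.{u, v, w} 𝒱 (K l)), Compatible W →
        ∀ (C : MComplex W) (R : Realisation C), (∀ a n, KunnethMotivic W (C.Y a) n) →
          (∀ l l', C.betti l = C.betti l') → ∀ l0, GoodAt P g Λ C l0 → ∀ w,
            ∃ A B : ℚ[X], (∀ l, CharpolyOn (R.φ l) (R.deg l w) A) ∧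
              (∀ l, CharpolyDvd (R.φ l) (R.inv l w) B) ∧
              (∀ l, GoodAt P g Λ C l → CharpolyOn (R.φ l) (R.inv l w) B) ∧
              (R.WeightMonodromy l0 →
                ∀ l, R.WeightMonodromy l ∧ CharpolyOn (R.φ l) (R.inv l w) B) := by
  obtain ⟨Λ, h1, h2, h3⟩ := final.{u, v, w} r P g hP hg
  refine ⟨Λ, h1, h2, fun k _ 𝒱 I K _ _ W hW C R hK hb l0 hl0 w => ?_⟩
  obtain ⟨A, B, hA, hB1, hB2, hB3⟩ := h3 k 𝒱 I K W hW C R hK hb l0 hl0 w
  have e : ∀ l, kerPow R l w 1 = R.inv l w := fun l => by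
    unfold kerPow Realisation.inv
    rw [pow_one]
  refine ⟨A, B 1, hA, fun l => ?_, fun l hl => ?_, fun hwm l => ⟨(hB3 hwm l).1, ?_⟩⟩
  · rw [← e l]; exact hB1 1 l
  · rw [← e l]; exact hB2 1 l hl
  · rw [← e l]; exact (hB3 hwm l).2 1

end Pool.Agent.H61W
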