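import Pool.Agent.W_MP_a3c811_h79.Lap.Abs

set_option autoImplicit false

/-! The tensor product of two `sl2`-triples on graded spaces. -/

noncomputable section

namespace Pool.Agent.H79L

open Module TensorProduct

universe v w w'

variable {K : Type v} [Field K] {E : Type w} [AddCommGroup E] [Module K E]
  {E' : Type w'} [AddCommGroup E'] [Module K E']
  {N f : Module.End K E} {s : ℤ → Module.End K E} {P : Finset ℤ}
  {N' f' : Module.End K E'} {s' : ℤ → Module.End K E'} {P' : Finset ℤ}

/-- the tensor product of two endomorphisms, as an element of the ring `End (E ⊗ E')` -/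
def tm (a : Module.End K E) (b : Module.End K E') : Module.End K (E ⊗[K] E') :=
  TensorProduct.map a b

theorem tm_mul (a b : Module.End K E) (a' b' : Module.End K E') :
    tm a a' * tm b b' = tm (a * b) (a' * b') :=
  (TensorProduct.map_comp a a' b b').symm

theorem tm_one : tm (1 : Module.End K E) (1 : Module.End K E') = 1 := TensorProduct.map_id

theorem tm_add_left (a b : Module.End K E) (c : Module.End K E') :
    tm (a + b) c = tm a c + tm b c := TensorProduct.map_add_left a b c

theorem tm_add_right (a : Module.End K E) (b c : Module.End K E') :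
    tm a (b + c) = tm a b + tm a c := TensorProduct.map_add_right a b c

theorem tm_zero_left (c : Module.End K E') : tm (0 : Module.End K E) c = 0 :=
  TensorProduct.map_zero_left c

theorem tm_zero_right (a : Module.End K E) : tm a (0 : Module.End K E') = 0 :=
  TensorProduct.map_zero_right a

theorem tm_smul_left (r : K) (a : Module.End K E) (c : Module.End K E') :
    tm (r • a) c = r • tm a c := TensorProduct.map_smul_left r a c

theorem tm_smul_right (r : K) (a : Module.End K E) (c : Module.End K E') :
    tm a (r • c) = r • tm a c := TensorProduct.map_smul_right r a c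

theorem tm_sub_left (a b : Module.End K E) (c : Module.End K E') :
    tm (a - b) c = tm a c - tm b c := by
  rw [eq_sub_iff_add_eq, ← tm_add_left, sub_add_cancel]

theorem tm_sub_right (a : Module.End K E) (b c : Module.End K E') :
    tm a (b - c) = tm a b - tm a c := by
  rw [eq_sub_iff_add_eq, ← tm_add_right, sub_add_cancel]

theorem tm_sum_left {ι : Type} (S : Finset ι) (a : ι → Module.End K E) (c : Module.End K E') :
    tm (∑ i ∈ S, a i) c = ∑ i ∈ S, tm (a i) c := by
  classical
  induction S using Finset.induction_on with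
  | empty => simp [tm_zero_left]
  | insert i S hi ih => rw [Finset.sum_insert hi, Finset.sum_insert hi, tm_add_left, ih]

theorem tm_sum_right {ι : Type} (S : Finset ι) (a : Module.End K E) (c : ι → Module.End K E') :
    tm a (∑ i ∈ S, c i) = ∑ i ∈ S, tm a (c i) := by
  classical
  induction S using Finset.induction_on with
  | empty => simp [tm_zero_right]
  | insert i S hi ih => rw [Finset.sum_insert hi, Finset.sum_insert hi, tm_add_right, ih]

/-- the projectors outside `P` are zero -/
theorem Sl.zero_off (h : Sl N f s P) {p : ℤ} (hp : p ∉ P) : s p = 0 := by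
  have h1 : (∑ q ∈ P, s q) * s p = s p := by rw [h.sum, one_mul]
  rw [← h1, Finset.sum_mul]
  refine Finset.sum_eq_zero fun q hq => h.orth q p ?_
  rintro rfl
  exact hp hq

/-- the tensor product of `N` and `N'` -/
def tN (N : Module.End K E) (N' : Module.End K E') : Module.End K (E ⊗[K] E') :=
  tm N 1 + tm 1 N'

/-- the projector of position `p` -/
def ts (s : ℤ → Module.End K E) (P : Finset ℤ) (s' : ℤ → Module.End K E') (p : ℤ) :
    Module.End K (E ⊗[K] E') := ∑ a ∈ P, tm (s a) (s' (p - a))

/-- The commutators of tensor sums. -/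
theorem br_tN (N f : Module.End K E) (N' f' : Module.End K E') :
    br (tN N N') (tN f f') = tN (br N f) (br N' f') := by
  unfold br tN
  simp only [add_mul, mul_add, tm_mul, mul_one, one_mul, tm_sub_left, tm_sub_right]
  abel

/-- Shift of the summation. -/
theorem ts_shift (h : Sl N f s P) (X : Module.End K E) (c : ℤ)
    (hX : ∀ a, X * s a = s (a + c) * X) (t : ℤ → Module.End K E') (p : ℤ) :
    ∑ a ∈ P, tm (X * s a) (t (p - a)) = ∑ a ∈ P, tm (s a * X) (t (p + c - a)) := by
  classical
  have h1 : ∑ a ∈ P, tm (X * s a) (t (p - a)) =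
      ∑ a ∈ P.image (fun a => a + c), tm (s a * X) (t (p + c - a)) := by
    rw [Finset.sum_image (fun a _ b _ hab => by simpa using hab)]
    refine Finset.sum_congr rfl fun a _ => ?_
    rw [hX, show p + c - (a + c) = p - a by ring]
  rw [h1]
  have h2 : ∀ S : Finset ℤ, (∀ a, a ∉ S → s a * X = 0) → ∀ S', (∀ a, a ∉ S' → s a * X = 0) →
      ∑ a ∈ S, tm (s a * X) (t (p + c - a)) = ∑ a ∈ S', tm (s a * X) (t (p + c - a)) := by
    intro S hS S' hS'
    have e1 : ∑ a ∈ S, tm (s a * X) (t (p + c - a)) =
        ∑ a ∈ S ∪ S', tm (s a * X) (t (p + c - a)) :=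
      Finset.sum_subset Finset.subset_union_left fun a _ ha => by rw [hS a ha, tm_zero_left]
    have e2 : ∑ a ∈ S', tm (s a * X) (t (p + c - a)) =
        ∑ a ∈ S ∪ S', tm (s a * X) (t (p + c - a)) :=
      Finset.sum_subset Finset.subset_union_right fun a _ ha => by rw [hS' a ha, tm_zero_left]
    rw [e1, e2]
  refine h2 _ (fun a ha => ?_) _ (fun a ha => by rw [h.zero_off ha, zero_mul])
  have h3 : a - c ∉ P := fun hp => ha (Finset.mem_image.2 ⟨a - c, hp, by ring⟩)
  have h4 := hX (a - c)
  rw [h.zero_off h3, mul_zero, sub_add_cancel] at h4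
  exact h4.symm

/-- The tensor product of two `sl2`-triples. -/
theorem Sl.tensor (h : Sl N f s P) (h' : Sl N' f' s' P') :
    Sl (tN N N') (tN f f') (ts s P s') (Finset.image₂ (· + ·) P P') where
  sum := by
    classical
    unfold ts
    rw [Finset.sum_comm]
    have h1 : ∀ a ∈ P, ∑ p ∈ Finset.image₂ (· + ·) P P', tm (s a) (s' (p - a)) = tm (s a) 1 := by
      intro a ha
      rw [← tm_sum_right, ← h'.sum]
      congr 1
      have h2 : ∑ b ∈ P', s' b = ∑ p ∈ P'.image (fun b => a + b), s' (p - a) := by
        rw [Finset.sum_image (fun b _ c _ hbc => by simpa using hbc)]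
        refine Finset.sum_congr rfl fun b _ => ?_
        rw [add_sub_cancel_left]
      rw [h2]
      symm
      refine Finset.sum_subset ?_ ?_
      · intro p hp
        obtain ⟨b, hb, rfl⟩ := Finset.mem_image.1 hp
        exact Finset.mem_image₂_of_mem ha hb
      · intro p _ hp
        refine h'.zero_off fun hb => hp (Finset.mem_image.2 ⟨p - a, hb, by ring⟩)
    rw [Finset.sum_congr rfl h1, ← tm_sum_left, h.sum, tm_one]
  idem p := by
    unfold ts
    rw [Finset.sum_mul]
    refine Finset.sum_congr rfl fun a ha => ?_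
    rw [Finset.mul_sum, Finset.sum_eq_single a]
    · rw [tm_mul, h.idem, h'.idem]
    · intro b _ hb
      rw [tm_mul, h.orth a b (Ne.symm hb), tm_zero_left]
    · intro hn
      exact absurd ha hn
  orth p p' hp := by
    unfold ts
    rw [Finset.sum_mul]
    refine Finset.sum_eq_zero fun a ha => ?_
    rw [Finset.mul_sum]
    refine Finset.sum_eq_zero fun b _ => ?_
    rw [tm_mul]
    by_cases hab : a = b
    · rw [← hab, h'.orth (p - a) (p' - a) (fun hc => hp (by linarith)), tm_zero_right]
    · rw [h.orth a b hab, tm_zero_left]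
  h p := by
    rw [br_tN]
    unfold ts tN
    rw [Finset.mul_sum, Finset.smul_sum]
    refine Finset.sum_congr rfl fun a _ => ?_
    rw [add_mul, tm_mul, tm_mul, one_mul, one_mul, h.h, h'.h, tm_smul_left, tm_smul_right,
      ← add_smul]
    congr 1
    push_cast
    ring
  Ns p := by
    unfold ts tN
    rw [add_mul, mul_add, Finset.mul_sum, Finset.mul_sum, Finset.sum_mul, Finset.sum_mul]
    have e1 : ∑ a ∈ P, tm N 1 * tm (s a) (s' (p - a)) =
        ∑ a ∈ P, tm (s a) (s' (p + 2 - a)) * tm N 1 := by
      simp only [tm_mul, one_mul, mul_one]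
      exact ts_shift h N 2 h.Ns s' p
    have e2 : ∑ a ∈ P, tm 1 N' * tm (s a) (s' (p - a)) =
        ∑ a ∈ P, tm (s a) (s' (p + 2 - a)) * tm 1 N' := by
      refine Finset.sum_congr rfl fun a _ => ?_
      rw [tm_mul, tm_mul, one_mul, mul_one, h'.Ns, show p - a + 2 = p + 2 - a by ring]
    rw [e1, e2]
  fs p := by
    unfold ts tN
    rw [add_mul, mul_add, Finset.mul_sum, Finset.mul_sum, Finset.sum_mul, Finset.sum_mul]
    have e1 : ∑ a ∈ P, tm f 1 * tm (s a) (s' (p - a)) =
        ∑ a ∈ P, tm (s a) (s' (p - 2 - a)) * tm f 1 := by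
      simp only [tm_mul, one_mul, mul_one]
      have := ts_shift h f (-2) (fun a => by rw [h.fs, sub_eq_add_neg]) s' p
      rw [this]
      refine Finset.sum_congr rfl fun a _ => ?_
      rw [show p + -2 - a = p - 2 - a by ring]
    have e2 : ∑ a ∈ P, tm 1 f' * tm (s a) (s' (p - a)) =
        ∑ a ∈ P, tm (s a) (s' (p - 2 - a)) * tm 1 f' := by
      refine Finset.sum_congr rfl fun a _ => ?_
      rw [tm_mul, tm_mul, one_mul, mul_one, h'.fs, show p - a - 2 = p - 2 - a by ring]
    rw [e1, e2]

end Pool.Agent.H79L
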